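import Pool.Agent.Helper66.HK.Stmts

/-! Sticky Kakeya, Hausdorff form: window form of the gap bound. -/

namespace Pool.Agent.Helper66.HK

open Finset Pool.Agent.Helper69.RK

theorem wl_hs_mono {m n : ℕ} {η η' : ℝ} {Ω ζ : Type} [Fintype Ω] {μ : Ω → ℝ} {Z : Ω → ζ}
    {a x : Ω → Fin m → ℝ} {t : Ω → ℝ} (h : HS m n η μ Z a x t) (hη : η ≤ η') :
    HS m n η' μ Z a x t := by
  have hn : (0 : ℝ) ≤ n := Nat.cast_nonneg n
  have h0 : η * n ≤ η' * n := mul_le_mul_of_nonneg_right hη hn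
  refine ⟨h.nn, h.ms, h.ab, h.xb, h.tb, fun k hk => (h.st k hk).trans h0, ?_, h.h2.trans h0⟩
  refine le_trans ?_ h.h1
  linarith

theorem st_WL (hZH : ST_ZH) (hZC : ST_ZC) : ST_WL := by
  intro m γ hG ε κ hε hκ
  obtain ⟨η1, hη1, n1, hn1⟩ := hG (ε / 2) (by positivity)
  refine ⟨min (η1 * κ) (ε * κ / 4), lt_min (by positivity) (by positivity),
    max ⌈(max (n1 : ℝ) 1) / κ⌉₊ ⌈4 * (m : ℝ) / (ε * κ)⌉₊, ?_⟩
  intro n hn Ω ζ _ μ Z a x t hS l w hlw hκw
  set η : ℝ := min (η1 * κ) (ε * κ / 4) with hηdef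
  have hη0 : 0 < η := lt_min (by positivity) (by positivity)
  have hηa : η ≤ η1 * κ := min_le_left _ _
  have hηb : η ≤ ε * κ / 4 := min_le_right _ _
  have hna : max (n1 : ℝ) 1 ≤ κ * n := by
    have h1 : (max (n1 : ℝ) 1) / κ ≤ n := by
      refine (Nat.le_ceil _).trans ?_
      exact_mod_cast (le_max_left _ _).trans hn
    rw [div_le_iff₀ hκ] at h1
    linarith
  have hnb : (m : ℝ) ≤ ε / 4 * (κ * n) := by
    have h1 : 4 * (m : ℝ) / (ε * κ) ≤ n := by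
      refine (Nat.le_ceil _).trans ?_
      exact_mod_cast (le_max_right _ _).trans hn
    rw [div_le_iff₀ (by positivity)] at h1
    linarith
  have hw1 : (1 : ℝ) ≤ w := ((le_max_right _ _).trans hna).trans hκw
  have hwn1 : (n1 : ℝ) ≤ w := ((le_max_left _ _).trans hna).trans hκw
  have hw1' : 1 ≤ w := by exact_mod_cast hw1
  have hwn1' : n1 ≤ w := by exact_mod_cast hwn1
  have hw0 : (0 : ℝ) < w := by linarith
  have hZ := hZH m n l w η Ω ζ μ Z a x t hS hlw hw1'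
  have hmono : η * n / w ≤ η1 := by
    rw [div_le_iff₀ hw0]
    calc η * n ≤ η1 * κ * n := mul_le_mul_of_nonneg_right hηa (Nat.cast_nonneg n)
      _ = η1 * (κ * n) := by ring
      _ ≤ η1 * w := mul_le_mul_of_nonneg_left hκw hη1.le
  have hZ' := wl_hs_mono hZ hmono
  have hgap := hn1 w hwn1' Ω _ μ _ _ _ t hZ'
  obtain ⟨c1, c2, -, c4⟩ := hZC m l w Ω ζ Unit μ Z (fun _ => ()) a x t (fun _ => 0) hS.nn hS.ms
  have c2' := c2 n hlw
  have hst := hS.st l (by omega)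
  rw [c1] at hgap
  have c4' := (abs_le.1 c4).2
  have hηn : η * n ≤ ε / 4 * w := by
    calc η * n ≤ ε * κ / 4 * n := mul_le_mul_of_nonneg_right hηb (Nat.cast_nonneg n)
      _ = ε / 4 * (κ * n) := by ring
      _ ≤ ε / 4 * w := mul_le_mul_of_nonneg_left hκw (by positivity)
  have hm : (m : ℝ) ≤ ε / 4 * w := hnb.trans (mul_le_mul_of_nonneg_left hκw (by positivity))
  have e1 : (γ + ε) * w = (γ + ε / 2) * w + (ε / 4 * w + ε / 4 * w) := by ring
  rw [e1]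
  linarith

end Pool.Agent.Helper66.HK
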